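import Mathlib

/-!
# The detachment process (passengers and buses): model and elementary estimates
-/

open MeasureTheory ProbabilityTheory Filter Topology Set
open scoped ENNReal

namespace Pool.Agent.V11331.DT

variable {Ω : Type*}

open Classical in
/-- `bus A i ω k` is the bus occupied by passenger `i` at time `k ≥ 1`, when `A k i` is the event
that passenger `i` moves to bus `k` at time `k` (`k ≥ 2`).  At time `1` everybody is in bus `1`. -/
noncomputable def bus (A : ℕ → ℕ → Set Ω) (i : ℕ) (ω : Ω) : ℕ → ℕ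
  | 0 => 1
  | 1 => 1
  | (k + 2) => if ω ∈ A (k + 2) i then k + 2 else bus A i ω (k + 1)

/-- At time `k` the passengers `1, …, n` occupy `n` distinct buses. -/
def Detached (A : ℕ → ℕ → Set Ω) (n k : ℕ) (ω : Ω) : Prop :=
  ∀ i j : ℕ, 1 ≤ i → i < j → j ≤ n → bus A i ω k ≠ bus A j ω k

/-- The first detachment time of the passengers `1, …, n` (`∞` if it never happens). -/
noncomputable def tauHat (A : ℕ → ℕ → Set Ω) (n : ℕ) (ω : Ω) : ℕ∞ :=
  ⨅ (k : ℕ) (_ : 1 ≤ k ∧ Detached A n k ω), (k : ℕ∞)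

/-- `maxDet A k ω = max {n : τ̂⁽ⁿ⁾ ≤ k}`, the maximal group that has been detached by time `k`. -/
noncomputable def maxDet (A : ℕ → ℕ → Set Ω) (k : ℕ) (ω : Ω) : ℕ :=
  sSup {n : ℕ | tauHat A n ω ≤ k}

/-- The model: at each time `k ≥ 2` each passenger `i ≥ 1` moves to the new bus `k` with
probability `1 / k`, all these moves being independent. -/
structure IsModel {Ω : Type*} [MeasurableSpace Ω] (P : Measure Ω) (A : ℕ → ℕ → Set Ω) : Prop where
  meas : ∀ k i, 2 ≤ k → 1 ≤ i → MeasurableSet (A k i)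
  prob : ∀ k i, 2 ≤ k → 1 ≤ i → P (A k i) = (k : ℝ≥0∞)⁻¹
  indep : iIndepSet (fun p : ℕ × ℕ => A (p.1 + 2) (p.2 + 1)) P

/-! ### Deterministic facts -/

variable {A : ℕ → ℕ → Set Ω}

lemma bus_one (i : ℕ) (ω : Ω) : bus A i ω 1 = 1 := rfl

lemma bus_succ_of_mem {i l : ℕ} {ω : Ω} (h : ω ∈ A (l + 2) i) : bus A i ω (l + 2) = l + 2 := by
  simp [bus, h]

lemma bus_succ_of_not_mem {i l : ℕ} {ω : Ω} (h : ω ∉ A (l + 2) i) :
    bus A i ω (l + 2) = bus A i ω (l + 1) := by
  simp [bus, h]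

lemma bus_le (i : ℕ) (ω : Ω) : ∀ l : ℕ, bus A i ω (l + 1) ≤ l + 1
  | 0 => by simp [bus]
  | (l + 1) => by
    by_cases h : ω ∈ A (l + 2) i
    · rw [show l + 1 + 1 = l + 2 from rfl, bus_succ_of_mem h]
    · rw [show l + 1 + 1 = l + 2 from rfl, bus_succ_of_not_mem h]
      have := bus_le i ω l
      omega

lemma one_le_bus (i : ℕ) (ω : Ω) : ∀ l : ℕ, 1 ≤ bus A i ω (l + 1)
  | 0 => by simp [bus]
  | (l + 1) => by
    by_cases h : ω ∈ A (l + 2) i
    · rw [show l + 1 + 1 = l + 2 from rfl, bus_succ_of_mem h]; omega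
    · rw [show l + 1 + 1 = l + 2 from rfl, bus_succ_of_not_mem h]
      exact one_le_bus i ω l

lemma Detached.mono {n n' k : ℕ} {ω : Ω} (h : Detached A n k ω) (hn : n' ≤ n) :
    Detached A n' k ω := fun i j hi hij hj => h i j hi hij (hj.trans hn)

lemma detached_one (k : ℕ) (ω : Ω) : Detached A 1 k ω := fun i j hi hij hj => by omega

lemma tauHat_le_iff {n k : ℕ} {ω : Ω} :
    tauHat A n ω ≤ k ↔ ∃ k' : ℕ, 1 ≤ k' ∧ k' ≤ k ∧ Detached A n k' ω := by
  constructor
  · intro h
    by_contra hcon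
    push Not at hcon
    have : ((k + 1 : ℕ) : ℕ∞) ≤ tauHat A n ω := by
      refine le_iInf₂ fun k' hk' => ?_
      have : k + 1 ≤ k' := by
        by_contra hlt
        exact hcon k' hk'.1 (by omega) hk'.2
      exact_mod_cast this
    have h2 := this.trans h
    have : k + 1 ≤ k := by exact_mod_cast h2
    omega
  · rintro ⟨k', h1, h2, h3⟩
    exact (iInf₂_le k' ⟨h1, h3⟩).trans (by exact_mod_cast h2)

lemma Detached.le {n l : ℕ} {ω : Ω} (h : Detached A n (l + 1) ω) : n ≤ l + 1 := by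
  have hinj : Set.InjOn (fun i => bus A i ω (l + 1)) (Finset.Icc 1 n : Set ℕ) := by
    intro i hi j hj hij
    simp only [Finset.coe_Icc, Set.mem_Icc] at hi hj
    rcases lt_trichotomy i j with hlt | heq | hgt
    · exact absurd hij (h i j hi.1 hlt hj.2)
    · exact heq
    · exact absurd hij.symm (h j i hj.1 hgt hi.2)
  have hmaps : ∀ i ∈ Finset.Icc 1 n, bus A i ω (l + 1) ∈ Finset.Icc 1 (l + 1) := fun i _ => by
    simp only [Finset.mem_Icc]
    exact ⟨one_le_bus i ω l, bus_le i ω l⟩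
  have := Finset.card_le_card_of_injOn _ hmaps hinj
  simpa using this

lemma bddAbove_set (k : ℕ) (ω : Ω) : BddAbove {n : ℕ | tauHat A n ω ≤ k} := by
  refine ⟨k, fun n hn => ?_⟩
  obtain ⟨k', h1, h2, h3⟩ := tauHat_le_iff.1 hn
  obtain ⟨l, rfl⟩ : ∃ l, k' = l + 1 := ⟨k' - 1, by omega⟩
  exact h3.le.trans h2

lemma le_maxDet_iff {n k : ℕ} (hk : 1 ≤ k) (ω : Ω) :
    n ≤ maxDet A k ω ↔ ∃ k' : ℕ, 1 ≤ k' ∧ k' ≤ k ∧ Detached A n k' ω := by
  constructor
  · intro h
    have hne : {n : ℕ | tauHat A n ω ≤ k}.Nonempty :=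
      ⟨1, tauHat_le_iff.2 ⟨1, le_rfl, hk, detached_one 1 ω⟩⟩
    have := Nat.sSup_mem hne (bddAbove_set k ω)
    obtain ⟨k', h1, h2, h3⟩ := tauHat_le_iff.1 this
    exact ⟨k', h1, h2, h3.mono h⟩
  · intro h
    exact le_csSup (bddAbove_set k ω) (tauHat_le_iff.2 h)

lemma maxDet_mono {k k' : ℕ} (hk : 1 ≤ k) (h : k ≤ k') (ω : Ω) :
    maxDet A k ω ≤ maxDet A k' ω := by
  rw [le_maxDet_iff (hk.trans h)]
  obtain ⟨j, h1, h2, h3⟩ := (le_maxDet_iff hk ω).1 (le_refl (maxDet A k ω))
  exact ⟨j, h1, h2.trans h, h3⟩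

/-- If the maximal detached group increases between times `k` and `k + 1`, then for some pair
`i < j ≤ M(k) + 1` sharing a bus at time `k`, one of `i, j` moves at time `k + 1`; in fact this
holds for every such pair, and there is at least one such pair. -/
lemma exists_pair_of_lt {l : ℕ} {ω : Ω} (h : maxDet A (l + 1) ω < maxDet A (l + 2) ω) :
    ∃ i j, 1 ≤ i ∧ i < j ∧ j ≤ maxDet A (l + 1) ω + 1 ∧ bus A i ω (l + 1) = bus A j ω (l + 1) := by
  have hnot : ¬ Detached A (maxDet A (l + 1) ω + 1) (l + 1) ω := by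
    intro hd
    have := (le_maxDet_iff (n := maxDet A (l + 1) ω + 1) (k := l + 1) (by omega) ω).2
      ⟨l + 1, by omega, le_rfl, hd⟩
    omega
  unfold Detached at hnot
  push Not at hnot
  obtain ⟨i, j, hi, hij, hj, he⟩ := hnot
  exact ⟨i, j, hi, hij, hj, he⟩

lemma move_of_lt {l i j : ℕ} {ω : Ω} (h : maxDet A (l + 1) ω < maxDet A (l + 2) ω)
    (hi : 1 ≤ i) (hij : i < j) (hj : j ≤ maxDet A (l + 1) ω + 1)
    (he : bus A i ω (l + 1) = bus A j ω (l + 1)) :
    ω ∈ A (l + 2) i ∪ A (l + 2) j := by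
  by_contra hcon
  simp only [Set.mem_union, not_or] at hcon
  obtain ⟨k', h1, h2, h3⟩ := (le_maxDet_iff (n := maxDet A (l + 1) ω + 1) (k := l + 2)
    (by omega) ω).1 h
  have hk' : k' = l + 2 := by
    by_contra hne
    have := (le_maxDet_iff (n := maxDet A (l + 1) ω + 1) (k := l + 1) (by omega) ω).2
      ⟨k', h1, by omega, h3⟩
    omega
  subst hk'
  refine h3 i j hi hij hj ?_
  rw [bus_succ_of_not_mem hcon.1, bus_succ_of_not_mem hcon.2, he]

/-! ### Measurability -/

/-- The σ-algebra generated by the moves at times `2, …, l + 1`. -/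
def past (A : ℕ → ℕ → Set Ω) (l : ℕ) : MeasurableSpace Ω :=
  MeasurableSpace.generateFrom {t | ∃ p ∈ {p : ℕ × ℕ | p.1 < l}, A (p.1 + 2) (p.2 + 1) = t}

/-- The σ-algebra generated by the moves at time `l + 2`. -/
def step (A : ℕ → ℕ → Set Ω) (l : ℕ) : MeasurableSpace Ω :=
  MeasurableSpace.generateFrom {t | ∃ p ∈ {p : ℕ × ℕ | p.1 = l}, A (p.1 + 2) (p.2 + 1) = t}

lemma past_mono {l l' : ℕ} (h : l ≤ l') : past A l ≤ past A l' := by
  refine MeasurableSpace.generateFrom_mono ?_
  rintro t ⟨p, hp, rfl⟩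
  exact ⟨p, lt_of_lt_of_le hp h, rfl⟩

lemma measurableSet_past {l l' i : ℕ} (h : l' < l) (hi : 1 ≤ i) :
    MeasurableSet[past A l] (A (l' + 2) i) := by
  refine MeasurableSpace.measurableSet_generateFrom ⟨(l', i - 1), h, ?_⟩
  show A (l' + 2) (i - 1 + 1) = _
  rw [Nat.sub_add_cancel hi]

lemma measurableSet_step {l i : ℕ} (hi : 1 ≤ i) : MeasurableSet[step A l] (A (l + 2) i) := by
  refine MeasurableSpace.measurableSet_generateFrom ⟨(l, i - 1), rfl, ?_⟩
  show A (l + 2) (i - 1 + 1) = _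
  rw [Nat.sub_add_cancel hi]

lemma measurable_bus {i : ℕ} (hi : 1 ≤ i) : ∀ l : ℕ,
    Measurable[past A l] (fun ω => bus A i ω (l + 1))
  | 0 => by
    letI : MeasurableSpace Ω := past A 0
    exact measurable_const
  | (l + 1) => by
    have h1 : MeasurableSet[past A (l + 1)] (A (l + 2) i) := measurableSet_past (by omega) hi
    have h2 : Measurable[past A (l + 1)] (fun ω => bus A i ω (l + 1)) :=
      (measurable_bus hi l).mono (past_mono (by omega)) le_rfl
    have : (fun ω => bus A i ω (l + 1 + 1)) =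
        fun ω => @ite _ (ω ∈ A (l + 2) i) (Classical.propDecidable _) (l + 2)
          (bus A i ω (l + 1)) := by
      ext ω
      show bus A i ω (l + 2) = _
      by_cases h : ω ∈ A (l + 2) i
      · rw [bus_succ_of_mem h, if_pos h]
      · rw [bus_succ_of_not_mem h, if_neg h]
    rw [this]
    letI : MeasurableSpace Ω := past A (l + 1)
    exact Measurable.ite h1 measurable_const h2

lemma measurableSet_eq_bus {i j l : ℕ} (hi : 1 ≤ i) (hj : 1 ≤ j) :
    MeasurableSet[past A l] {ω | bus A i ω (l + 1) = bus A j ω (l + 1)} := by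
  letI : MeasurableSpace Ω := past A l
  exact measurableSet_eq_fun (measurable_bus hi l) (measurable_bus hj l)

lemma measurableSet_detached (n l : ℕ) :
    MeasurableSet[past A l] {ω | Detached A n (l + 1) ω} := by
  have : {ω | Detached A n (l + 1) ω} = ⋂ (i : ℕ) (j : ℕ) (_ : 1 ≤ i) (_ : i < j) (_ : j ≤ n),
      {ω | bus A i ω (l + 1) = bus A j ω (l + 1)}ᶜ := by
    ext ω
    simp only [Detached, Set.mem_ofPred_eq, Set.mem_iInter, Set.mem_compl_iff, ne_eq]
  rw [this]
  refine @MeasurableSet.iInter _ _ (past A l) _ _ fun i => ?_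
  refine @MeasurableSet.iInter _ _ (past A l) _ _ fun j => ?_
  refine @MeasurableSet.iInter _ _ (past A l) _ _ fun hi => ?_
  refine @MeasurableSet.iInter _ _ (past A l) _ _ fun hij => ?_
  refine @MeasurableSet.iInter _ _ (past A l) _ _ fun hj => ?_
  exact @MeasurableSet.compl _ _ (past A l) (measurableSet_eq_bus hi (by omega))

lemma measurableSet_le_maxDet (n l : ℕ) :
    MeasurableSet[past A l] {ω | n ≤ maxDet A (l + 1) ω} := by
  have : {ω | n ≤ maxDet A (l + 1) ω} = ⋃ (l' : ℕ) (_ : l' ≤ l),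
      {ω | Detached A n (l' + 1) ω} := by
    ext ω
    simp only [Set.mem_ofPred_eq, Set.mem_iUnion, exists_prop]
    rw [le_maxDet_iff (by omega)]
    constructor
    · rintro ⟨k', h1, h2, h3⟩
      obtain ⟨l', rfl⟩ : ∃ l', k' = l' + 1 := ⟨k' - 1, by omega⟩
      exact ⟨l', by omega, h3⟩
    · rintro ⟨l', h1, h2⟩
      exact ⟨l' + 1, by omega, by omega, h2⟩
  rw [this]
  refine @MeasurableSet.iUnion _ _ (past A l) _ _ fun l' => ?_
  refine @MeasurableSet.iUnion _ _ (past A l) _ _ fun hl' => ?_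
  exact past_mono hl' _ (measurableSet_detached n l')

section prob

variable [MeasurableSpace Ω] {P : Measure Ω} [IsProbabilityMeasure P]

lemma past_le (h : IsModel P A) (l : ℕ) : past A l ≤ ‹MeasurableSpace Ω› := by
  refine MeasurableSpace.generateFrom_le ?_
  rintro t ⟨p, hp, rfl⟩
  exact h.meas _ _ (by omega) (by omega)

lemma indep_past_step (h : IsModel P A) (l : ℕ) : Indep (past A l) (step A l) P := by
  refine iIndepSet.indep_generateFrom_of_disjoint
    (s := fun p : ℕ × ℕ => A (p.1 + 2) (p.2 + 1)) (fun p => h.meas _ _ (by omega) (by omega))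
    h.indep _ _ ?_
  rw [Set.disjoint_left]
  intro p hp hp'
  simp only [Set.mem_ofPred_eq] at hp hp'
  omega

lemma measure_inter (h : IsModel P A) {l : ℕ} {U V : Set Ω} (hU : MeasurableSet[past A l] U)
    (hV : MeasurableSet[step A l] V) : P (U ∩ V) = P U * P V :=
  (Indep_iff _ _ P).1 (indep_past_step h l) U V hU hV

lemma prob_move (h : IsModel P A) (l : ℕ) {i : ℕ} (hi : 1 ≤ i) :
    P.real (A (l + 2) i) = 1 / ((l : ℝ) + 2) := by
  rw [measureReal_def, h.prob _ _ (by omega) hi, ENNReal.toReal_inv, ENNReal.toReal_natCast]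
  push_cast
  rw [one_div]

lemma prob_move_inter (h : IsModel P A) (l : ℕ) {i j : ℕ} (hi : 1 ≤ i) (hj : 1 ≤ j)
    (hij : i ≠ j) :
    P.real (A (l + 2) i ∩ A (l + 2) j) = 1 / ((l : ℝ) + 2) ^ 2 := by
  have h1 := (iIndepSet_iff_meas_biInter (μ := P)
    (f := fun p : ℕ × ℕ => A (p.1 + 2) (p.2 + 1))
    (fun p => h.meas _ _ (by omega) (by omega))).1 h.indep {(l, i - 1), (l, j - 1)}
  have hne : ((l, i - 1) : ℕ × ℕ) ≠ (l, j - 1) := by
    intro he
    simp only [Prod.mk.injEq, true_and] at he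
    omega
  rw [Finset.prod_pair hne] at h1
  simp only [Finset.mem_insert, Finset.mem_singleton, Set.iInter_iInter_eq_or_left,
    Set.iInter_iInter_eq_left] at h1
  rw [Nat.sub_add_cancel hi, Nat.sub_add_cancel hj] at h1
  rw [measureReal_def, h1, ENNReal.toReal_mul, ← measureReal_def, ← measureReal_def,
    prob_move h l hi, prob_move h l hj, one_div_mul_one_div, sq]

lemma prob_move_union (h : IsModel P A) (l : ℕ) {i j : ℕ} (hi : 1 ≤ i) (hj : 1 ≤ j)
    (hij : i ≠ j) :
    P.real (A (l + 2) i ∪ A (l + 2) j) = 2 / ((l : ℝ) + 2) - 1 / ((l : ℝ) + 2) ^ 2 := by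
  have h1 := measureReal_union_add_inter (μ := P) (s := A (l + 2) i) (t := A (l + 2) j)
    (h.meas _ _ (by omega) hj)
  rw [prob_move_inter h l hi hj hij, prob_move h l hi, prob_move h l hj] at h1
  have : P.real (A (l + 2) i ∪ A (l + 2) j) =
      1 / ((l : ℝ) + 2) + 1 / ((l : ℝ) + 2) - 1 / ((l : ℝ) + 2) ^ 2 := by linarith
  rw [this]; ring

lemma prob_eq_bus (h : IsModel P A) {i j : ℕ} (hi : 1 ≤ i) (hj : 1 ≤ j) (hij : i ≠ j) :
    ∀ l : ℕ, P.real {ω | bus A i ω (l + 1) = bus A j ω (l + 1)} = 1 / ((l : ℝ) + 1)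
  | 0 => by simp [bus]
  | (l + 1) => by
    have ih := prob_eq_bus h hi hj hij l
    set E := {ω | bus A i ω (l + 1) = bus A j ω (l + 1)} with hE
    have hEm : MeasurableSet[past A l] E := measurableSet_eq_bus hi hj
    have hset : {ω | bus A i ω (l + 1 + 1) = bus A j ω (l + 1 + 1)} =
        (A (l + 2) i ∩ A (l + 2) j) ∪ (E ∩ (A (l + 2) i ∪ A (l + 2) j)ᶜ) := by
      ext ω
      simp only [Set.mem_ofPred_eq, Set.mem_union, Set.mem_inter_iff, Set.mem_compl_iff, not_or, hE]
      show bus A i ω (l + 2) = bus A j ω (l + 2) ↔ _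
      have b1 : bus A i ω (l + 1) ≤ l + 1 := bus_le i ω l
      have b2 : bus A j ω (l + 1) ≤ l + 1 := bus_le j ω l
      by_cases c1 : ω ∈ A (l + 2) i <;> by_cases c2 : ω ∈ A (l + 2) j
      · rw [bus_succ_of_mem c1, bus_succ_of_mem c2]; simp [c1, c2]
      · rw [bus_succ_of_mem c1, bus_succ_of_not_mem c2]
        simp only [c1, c2, and_false, not_true_eq_false, false_and, or_false, iff_false]
        omega
      · rw [bus_succ_of_not_mem c1, bus_succ_of_mem c2]
        simp only [c1, c2, false_and, not_true_eq_false, and_false, or_false, iff_false]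
        omega
      · rw [bus_succ_of_not_mem c1, bus_succ_of_not_mem c2]
        simp [c1, c2]
    have hUm : MeasurableSet[step A l] (A (l + 2) i ∪ A (l + 2) j)ᶜ :=
      @MeasurableSet.compl _ _ (step A l)
        (@MeasurableSet.union _ (step A l) _ _ (measurableSet_step hi) (measurableSet_step hj))
    have hU : MeasurableSet (A (l + 2) i ∪ A (l + 2) j) :=
      (h.meas _ _ (by omega) hi).union (h.meas _ _ (by omega) hj)
    rw [hset, measureReal_union]
    · rw [prob_move_inter h l hi hj hij, measureReal_def, measure_inter h hEm hUm,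
        ENNReal.toReal_mul, ← measureReal_def, ← measureReal_def, ih,
        probReal_compl_eq_one_sub hU, prob_move_union h l hi hj hij]
      push_cast
      have : (l : ℝ) + 2 ≠ 0 := by positivity
      have : (l : ℝ) + 1 ≠ 0 := by positivity
      field_simp
      ring
    · rw [Set.disjoint_left]
      rintro ω ⟨h1, h2⟩ ⟨_, h3⟩
      exact h3 (Or.inl h1)
    · exact (past_le h l _ hEm).inter hU.compl

/-- The probability that `1, …, n` are not detached at time `l + 1` is at most `n² / (l + 1)`. -/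
lemma prob_not_detached (h : IsModel P A) (n l : ℕ) :
    P.real {ω | ¬ Detached A n (l + 1) ω} ≤ (n : ℝ) ^ 2 / ((l : ℝ) + 1) := by
  have hsub : {ω | ¬ Detached A n (l + 1) ω} ⊆
      ⋃ p ∈ (Finset.Icc 1 n ×ˢ Finset.Icc 1 n).filter (fun p : ℕ × ℕ => p.1 ≠ p.2),
        {ω | bus A p.1 ω (l + 1) = bus A p.2 ω (l + 1)} := by
    intro ω hω
    simp only [Set.mem_ofPred_eq, Detached] at hω
    push Not at hω
    obtain ⟨i, j, hi, hij, hj, he⟩ := hω
    simp only [Finset.mem_filter, Finset.mem_product, Finset.mem_Icc, Set.mem_iUnion,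
      Set.mem_ofPred_eq, exists_prop, Prod.exists]
    exact ⟨i, j, ⟨⟨⟨hi, by omega⟩, ⟨by omega, hj⟩⟩, by omega⟩, he⟩
  calc P.real {ω | ¬ Detached A n (l + 1) ω}
      ≤ P.real (⋃ p ∈ (Finset.Icc 1 n ×ˢ Finset.Icc 1 n).filter (fun p : ℕ × ℕ => p.1 ≠ p.2),
        {ω | bus A p.1 ω (l + 1) = bus A p.2 ω (l + 1)}) :=
        measureReal_mono hsub (measure_ne_top _ _)
    _ ≤ ∑ p ∈ (Finset.Icc 1 n ×ˢ Finset.Icc 1 n).filter (fun p : ℕ × ℕ => p.1 ≠ p.2),
        P.real {ω | bus A p.1 ω (l + 1) = bus A p.2 ω (l + 1)} :=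
        measureReal_biUnion_finset_le _ _
    _ = ∑ p ∈ (Finset.Icc 1 n ×ˢ Finset.Icc 1 n).filter (fun p : ℕ × ℕ => p.1 ≠ p.2),
        1 / ((l : ℝ) + 1) := by
        refine Finset.sum_congr rfl fun p hp => ?_
        simp only [Finset.mem_filter, Finset.mem_product, Finset.mem_Icc] at hp
        exact prob_eq_bus h hp.1.1.1 hp.1.2.1 hp.2 l
    _ ≤ (n : ℝ) ^ 2 / ((l : ℝ) + 1) := by
        rw [Finset.sum_const, nsmul_eq_mul, mul_one_div]
        have hcard : (((Finset.Icc 1 n ×ˢ Finset.Icc 1 n).filter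
            (fun p : ℕ × ℕ => p.1 ≠ p.2)).card : ℝ) ≤ (n : ℝ) ^ 2 := by
          have := Finset.card_filter_le (Finset.Icc 1 n ×ˢ Finset.Icc 1 n)
            (fun p : ℕ × ℕ => p.1 ≠ p.2)
          rw [Finset.card_product] at this
          simp only [Nat.card_Icc, Nat.add_sub_cancel] at this
          have h2 : (((Finset.Icc 1 n ×ˢ Finset.Icc 1 n).filter
            (fun p : ℕ × ℕ => p.1 ≠ p.2)).card : ℝ) ≤ ((n * n : ℕ) : ℝ) := by exact_mod_cast this
          push_cast at h2
          nlinarith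
        gcongr

lemma prob_le_maxDet (h : IsModel P A) (n l : ℕ) :
    1 - (n : ℝ) ^ 2 / ((l : ℝ) + 1) ≤ P.real {ω | n ≤ maxDet A (l + 1) ω} := by
  have h1 := prob_not_detached h n l
  have hm : MeasurableSet {ω | Detached A n (l + 1) ω} :=
    past_le h l _ (measurableSet_detached n l)
  have h2 : P.real {ω | ¬ Detached A n (l + 1) ω} = 1 - P.real {ω | Detached A n (l + 1) ω} := by
    rw [← probReal_compl_eq_one_sub hm]; rfl
  have h3 : P.real {ω | Detached A n (l + 1) ω} ≤ P.real {ω | n ≤ maxDet A (l + 1) ω} := by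
    refine measureReal_mono fun ω hω => ?_
    exact (le_maxDet_iff (by omega) ω).2 ⟨l + 1, by omega, le_rfl, hω⟩
  linarith

/-- At each step the maximal detached group increases with probability at most `2 / (l + 2)`. -/
lemma prob_increase (h : IsModel P A) (l : ℕ) :
    P.real {ω | maxDet A (l + 1) ω < maxDet A (l + 2) ω} ≤ 2 / ((l : ℝ) + 2) := by
  -- enumerate the pairs
  let e : ℕ → ℕ × ℕ := fun n => (Nat.unpair n)
  let S : ℕ → Set Ω := fun n => {ω | 1 ≤ (e n).1 ∧ (e n).1 < (e n).2 ∧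
    (e n).2 - 1 ≤ maxDet A (l + 1) ω ∧ bus A (e n).1 ω (l + 1) = bus A (e n).2 ω (l + 1)}
  have hSm : ∀ n, MeasurableSet[past A l] (S n) := by
    intro n
    by_cases hc : 1 ≤ (e n).1 ∧ (e n).1 < (e n).2
    · have : S n = {ω | (e n).2 - 1 ≤ maxDet A (l + 1) ω} ∩
          {ω | bus A (e n).1 ω (l + 1) = bus A (e n).2 ω (l + 1)} := by
        ext ω
        simp only [S, Set.mem_ofPred_eq, Set.mem_inter_iff]
        tauto
      rw [this]
      exact @MeasurableSet.inter _ (past A l) _ _ (measurableSet_le_maxDet _ l)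
        (measurableSet_eq_bus hc.1 (by omega))
    · have : S n = ∅ := by
        ext ω
        simp only [S, Set.mem_ofPred_eq, Set.mem_empty_iff_false, iff_false]
        tauto
      rw [this]
      exact @MeasurableSet.empty _ (past A l)
  let D : ℕ → Set Ω := disjointed S
  have hDm : ∀ n, MeasurableSet[past A l] (D n) := fun n => by
    letI : MeasurableSpace Ω := past A l
    exact MeasurableSet.disjointed hSm n
  have hDS : ∀ n, D n ⊆ S n := fun n => disjointed_subset S n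
  have hDU : (⋃ n, D n) = ⋃ n, S n := iUnion_disjointed
  have hDd : Pairwise (Function.onFun Disjoint D) := disjoint_disjointed S
  let V : ℕ → Set Ω := fun n => A (l + 2) (e n).1 ∪ A (l + 2) (e n).2
  have hsub : {ω | maxDet A (l + 1) ω < maxDet A (l + 2) ω} ⊆ ⋃ n, (D n ∩ V n) := by
    intro ω hω
    obtain ⟨i, j, hi, hij, hj, he⟩ := exists_pair_of_lt hω
    have hmem : ω ∈ ⋃ n, S n := by
      refine Set.mem_iUnion.2 ⟨Nat.pair i j, ?_⟩
      simp only [S, e, Set.mem_ofPred_eq, Nat.unpair_pair]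
      exact ⟨hi, hij, by omega, he⟩
    rw [← hDU] at hmem
    obtain ⟨n, hn⟩ := Set.mem_iUnion.1 hmem
    refine Set.mem_iUnion.2 ⟨n, hn, ?_⟩
    have hs := hDS n hn
    simp only [S, Set.mem_ofPred_eq] at hs
    exact move_of_lt hω hs.1 hs.2.1 (by omega) hs.2.2.2
  have hterm : ∀ n, P (D n ∩ V n) ≤ P (D n) * ENNReal.ofReal (2 / ((l : ℝ) + 2)) := by
    intro n
    by_cases hc : 1 ≤ (e n).1 ∧ (e n).1 < (e n).2
    · have hVm : MeasurableSet[step A l] (V n) :=
        @MeasurableSet.union _ (step A l) _ _ (measurableSet_step hc.1)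
          (measurableSet_step (by omega))
      rw [measure_inter h (hDm n) hVm]
      gcongr
      have : P.real (V n) ≤ 2 / ((l : ℝ) + 2) := by
        rw [prob_move_union h l hc.1 (by omega) (by omega)]
        have : 0 ≤ 1 / ((l : ℝ) + 2) ^ 2 := by positivity
        linarith
      rw [← ENNReal.ofReal_toReal (measure_ne_top P (V n))]
      exact ENNReal.ofReal_le_ofReal this
    · have : D n ∩ V n = ∅ := by
        refine Set.eq_empty_of_forall_notMem fun ω hω => hc ?_
        have := hDS n hω.1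
        simp only [S, Set.mem_ofPred_eq] at this
        exact ⟨this.1, this.2.1⟩
      rw [this, measure_empty]
      exact bot_le
  have hfin : P {ω | maxDet A (l + 1) ω < maxDet A (l + 2) ω} ≤
      ENNReal.ofReal (2 / ((l : ℝ) + 2)) := by
    calc P {ω | maxDet A (l + 1) ω < maxDet A (l + 2) ω}
        ≤ P (⋃ n, (D n ∩ V n)) := measure_mono hsub
      _ ≤ ∑' n, P (D n ∩ V n) := measure_iUnion_le _
      _ ≤ ∑' n, P (D n) * ENNReal.ofReal (2 / ((l : ℝ) + 2)) := ENNReal.tsum_le_tsum hterm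
      _ = (∑' n, P (D n)) * ENNReal.ofReal (2 / ((l : ℝ) + 2)) := ENNReal.tsum_mul_right
      _ = P (⋃ n, D n) * ENNReal.ofReal (2 / ((l : ℝ) + 2)) := by
          rw [measure_iUnion hDd (fun n => past_le h l _ (hDm n))]
      _ ≤ 1 * ENNReal.ofReal (2 / ((l : ℝ) + 2)) := by
          gcongr
          exact prob_le_one
      _ = _ := one_mul _
  rw [measureReal_def]
  exact ENNReal.toReal_le_of_le_ofReal (by positivity) hfin

end prob

end Pool.Agent.V11331.DT
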