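import Pool.Agent.V11331.DT.Path

/-!
# No weak limit in `C((0,∞))`, and existence of the model
-/

open MeasureTheory ProbabilityTheory Filter Topology Set
open scoped ENNReal BoundedContinuousFunction

namespace Pool.Agent.V11331.DT

/-! ### The modulus of continuity as a continuous functional -/

/-- Pairs of times in `[1, T]` at distance at most `δ`. -/
def Kset (T δ : ℝ) : Set (ℝ × ℝ) := {p | p.1 ∈ Icc 1 T ∧ p.2 ∈ Icc 1 T ∧ |p.1 - p.2| ≤ δ}

lemma isCompact_Kset (T δ : ℝ) : IsCompact (Kset T δ) := by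
  have h1 : IsCompact ((Icc (1 : ℝ) T) ×ˢ (Icc (1 : ℝ) T)) := isCompact_Icc.prod isCompact_Icc
  refine h1.of_isClosed_subset ?_ fun p hp => ⟨hp.1, hp.2.1⟩
  have e : Kset T δ = ((Icc (1 : ℝ) T) ×ˢ (Icc (1 : ℝ) T)) ∩ {p | |p.1 - p.2| ≤ δ} := by
    ext p
    simp only [Kset, Set.mem_ofPred_eq, Set.mem_inter_iff, Set.mem_prod]
    tauto
  rw [e]
  exact h1.isClosed.inter (isClosed_le (by fun_prop) continuous_const)

instance (T δ : ℝ) : CompactSpace (Kset T δ) := isCompact_iff_compactSpace.1 (isCompact_Kset T δ)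

/-- First coordinate. -/
def fstK (T δ : ℝ) : C(Kset T δ, Set.Ioi (0 : ℝ)) where
  toFun p := ⟨p.1.1, lt_of_lt_of_le zero_lt_one p.2.1.1⟩
  continuous_toFun := by fun_prop

/-- Second coordinate. -/
def sndK (T δ : ℝ) : C(Kset T δ, Set.Ioi (0 : ℝ)) where
  toFun p := ⟨p.1.2, lt_of_lt_of_le zero_lt_one p.2.2.1.1⟩
  continuous_toFun := by fun_prop

/-- The modulus of continuity on `[1, T]`. -/
noncomputable def osc (T δ : ℝ) (f : PathSpace) : ℝ := ‖f.comp (fstK T δ) - f.comp (sndK T δ)‖

lemma continuous_osc (T δ : ℝ) : Continuous (osc T δ) :=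
  ((ContinuousMap.continuous_precomp (fstK T δ)).sub
    (ContinuousMap.continuous_precomp (sndK T δ))).norm

lemma osc_nonneg (T δ : ℝ) (f : PathSpace) : 0 ≤ osc T δ f := norm_nonneg _

lemma le_osc {T δ : ℝ} (f : PathSpace) (s t : Set.Ioi (0 : ℝ)) (hs : (s : ℝ) ∈ Icc 1 T)
    (ht : (t : ℝ) ∈ Icc 1 T) (hst : |(s : ℝ) - t| ≤ δ) : |f s - f t| ≤ osc T δ f :=
  (f.comp (fstK T δ) - f.comp (sndK T δ)).norm_coe_le_norm ⟨((s : ℝ), (t : ℝ)), hs, ht, hst⟩

lemma tendsto_osc (T : ℝ) (f : PathSpace) :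
    Tendsto (fun n : ℕ => osc T (1 / ((n : ℝ) + 1)) f) atTop (𝓝 0) := by
  rw [Metric.tendsto_atTop]
  intro ε hε
  let g : Icc (1 : ℝ) T → ℝ := fun s => f ⟨s, lt_of_lt_of_le zero_lt_one s.2.1⟩
  have hg : Continuous g := f.continuous.comp (by fun_prop)
  have hu := CompactSpace.uniformContinuous_of_continuous hg
  obtain ⟨δ, hδ, hd⟩ := Metric.uniformContinuous_iff.1 hu (ε / 2) (by positivity)
  obtain ⟨N, hN⟩ := exists_nat_gt (1 / δ)
  refine ⟨N, fun n hn => ?_⟩
  have h1 : 1 / ((n : ℝ) + 1) < δ := by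
    have : (N : ℝ) ≤ n := by exact_mod_cast hn
    rw [div_lt_iff₀ (by positivity)]
    rw [div_lt_iff₀ hδ] at hN
    nlinarith
  rw [Real.dist_eq, sub_zero, abs_of_nonneg (osc_nonneg _ _ _)]
  refine lt_of_le_of_lt ?_ (half_lt_self hε)
  refine (ContinuousMap.norm_le _ (by positivity)).2 fun p => ?_
  have := hd (a := ⟨p.1.1, p.2.1⟩) (b := ⟨p.1.2, p.2.2.1⟩) (by
    rw [Subtype.dist_eq, Real.dist_eq]
    exact lt_of_le_of_lt p.2.2.2 h1)
  rw [Real.dist_eq] at this
  exact this.le

/-- A continuous functional with values in `[0,1]` as a bounded continuous function. -/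
noncomputable def mkB (Φ : PathSpace → ℝ) (hc : Continuous Φ) (h0 : ∀ f, 0 ≤ Φ f)
    (h1 : ∀ f, Φ f ≤ 1) : PathSpace →ᵇ ℝ :=
  BoundedContinuousFunction.ofNormedAddCommGroup Φ hc 1
    (fun f => by rw [Real.norm_of_nonneg (h0 f)]; exact h1 f)

lemma integrable_of_unit {α : Type*} [MeasurableSpace α] {Q : Measure α} [IsProbabilityMeasure Q]
    {Φ : α → ℝ} (hc : Measurable Φ) (h0 : ∀ f, 0 ≤ Φ f) (h1 : ∀ f, Φ f ≤ 1) :
    Integrable Φ Q :=
  Integrable.of_bound hc.aestronglyMeasurable 1
    (Eventually.of_forall fun f => by rw [Real.norm_of_nonneg (h0 f)]; exact h1 f)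

/-- The time `t` as a point of `(0,∞)`. -/
def pt (t : ℕ) (ht : 1 ≤ t) : Set.Ioi (0 : ℝ) := ⟨(t : ℝ), by
  have : (1 : ℝ) ≤ t := by exact_mod_cast ht
  exact lt_of_lt_of_le zero_lt_one this⟩

/-- The truncated increment of a path between times `1` and `T`. -/
noncomputable def incr (T : ℕ) (hT : 1 ≤ T) (f : PathSpace) : ℝ :=
  min 1 (max 0 (f (pt T hT) - f (pt 1 le_rfl)))

lemma continuous_incr (T : ℕ) (hT : 1 ≤ T) : Continuous (incr T hT) := by
  unfold incr; fun_prop

lemma incr_nonneg (T : ℕ) (hT : 1 ≤ T) (f : PathSpace) : 0 ≤ incr T hT f :=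
  le_min zero_le_one (le_max_left _ _)

lemma incr_le (T : ℕ) (hT : 1 ≤ T) (f : PathSpace) : incr T hT f ≤ 1 := min_le_left _ _

section

variable {Ω : Type*} [MeasurableSpace Ω] {P : Measure Ω} [IsProbabilityMeasure P]
  {A : ℕ → ℕ → Set Ω}

lemma osc_lower (h : IsModel P A) {X : ℕ → Ω → PathSpace} (hX : IsRescaled A X)
    {m T : ℕ} (hm : 1 ≤ m) (hT : 1 ≤ T) {ε ε' δ : ℝ} (hε : 0 < ε) (hε' : 0 < ε')
    (hδ : 1 / (m : ℝ) ^ 2 ≤ δ) :
    (∫ ω, incr T hT (X m ω) ∂P) - ε - 2 * T * ε' / ε ≤ P.real {ω | ε' ≤ osc T δ (X m ω)} := by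
  have hm0 : (0 : ℝ) < m := by exact_mod_cast hm
  have hm2 : 1 ≤ m ^ 2 := Nat.one_le_pow _ _ hm
  have hTm : 1 ≤ T * m ^ 2 := Nat.one_le_iff_ne_zero.2 (by positivity)
  have hXT : ∀ ω, X m ω (pt T hT) = (maxDet A (T * m ^ 2) ω : ℝ) / m := fun ω =>
    hX.apply hm hTm ω _ (by
      show (T : ℝ) = _
      push_cast
      field_simp)
  have hX1 : ∀ ω, X m ω (pt 1 le_rfl) = (maxDet A (m ^ 2) ω : ℝ) / m := fun ω =>
    hX.apply hm hm2 ω _ (by
      show ((1 : ℕ) : ℝ) = _
      push_cast
      field_simp)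
  set B : Set Ω := {ω | ε * m < (maxDet A (T * m ^ 2) ω : ℝ) - maxDet A (m ^ 2) ω} with hB
  have hBm : MeasurableSet B := by
    refine measurableSet_lt measurable_const ?_
    exact ((measurable_from_top (f := fun n : ℕ => (n : ℝ))).comp (measurable_maxDet h _)).sub
      ((measurable_from_top (f := fun n : ℕ => (n : ℝ))).comp (measurable_maxDet h _))
  -- step 1: E G ≤ ε + P(B)
  have s1 : ∫ ω, incr T hT (X m ω) ∂P ≤ ε + P.real B := by
    have hint : Integrable (fun ω => incr T hT (X m ω)) P :=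
      integrable_of_unit ((continuous_incr T hT).measurable.comp (hX.meas m hm))
        (fun ω => incr_nonneg T hT _) (fun ω => incr_le T hT _)
    have hint2 : Integrable (fun ω => ε + B.indicator (fun _ => (1 : ℝ)) ω) P :=
      (integrable_const _).add ((integrable_const (1 : ℝ)).indicator hBm)
    calc ∫ ω, incr T hT (X m ω) ∂P ≤ ∫ ω, (ε + B.indicator (fun _ => (1 : ℝ)) ω) ∂P := by
          refine integral_mono hint hint2 fun ω => ?_
          by_cases hω : ω ∈ B
          · simp only [Set.indicator_of_mem hω]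
            have := incr_le T hT (X m ω)
            linarith
          · simp only [Set.indicator_of_notMem hω, add_zero]
            refine (min_le_right _ _).trans (max_le hε.le ?_)
            rw [hXT, hX1, ← sub_div, div_le_iff₀ hm0]
            exact not_lt.1 hω
      _ = ε + P.real B := by
          rw [integral_add (integrable_const _) ((integrable_const (1 : ℝ)).indicator hBm)]
          have e1 : ∫ a, B.indicator (fun _ => (1 : ℝ)) a ∂P = P.real B :=
            integral_indicator_one hBm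
          rw [e1]
          simp
  -- step 2: B is contained in the bad event or large oscillation
  have s2 : B ⊆ {ω | ε * m < (maxDet A (T * m ^ 2) ω : ℝ) - maxDet A (m ^ 2) ω ∧
      ∀ k, m ^ 2 ≤ k → k < T * m ^ 2 → (maxDet A (k + 1) ω : ℝ) - maxDet A k ω < ε' * m} ∪
      {ω | ε' ≤ osc T δ (X m ω)} := by
    intro ω hω
    by_cases hall : ∀ k, m ^ 2 ≤ k → k < T * m ^ 2 →
      (maxDet A (k + 1) ω : ℝ) - maxDet A k ω < ε' * m
    · exact Or.inl ⟨hω, hall⟩
    · refine Or.inr ?_
      push Not at hall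
      obtain ⟨k, hk1, hk2, hk3⟩ := hall
      have hk1' : (m : ℝ) ^ 2 ≤ k := by exact_mod_cast hk1
      have hk2' : (k : ℝ) + 1 ≤ T * (m : ℝ) ^ 2 := by exact_mod_cast hk2
      have hmm : (0 : ℝ) < (m : ℝ) ^ 2 := by positivity
      have hs0 : (1 : ℝ) ≤ (k : ℝ) / (m : ℝ) ^ 2 := by
        rw [le_div_iff₀ hmm]; linarith
      have ht0 : (1 : ℝ) ≤ ((k + 1 : ℕ) : ℝ) / (m : ℝ) ^ 2 := by
        rw [le_div_iff₀ hmm]; push_cast; linarith
      let s : Set.Ioi (0 : ℝ) := ⟨(k : ℝ) / (m : ℝ) ^ 2, lt_of_lt_of_le zero_lt_one hs0⟩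
      let t : Set.Ioi (0 : ℝ) := ⟨((k + 1 : ℕ) : ℝ) / (m : ℝ) ^ 2,
        lt_of_lt_of_le zero_lt_one ht0⟩
      have hs : X m ω s = (maxDet A k ω : ℝ) / m := hX.apply hm (by omega) ω s rfl
      have ht : X m ω t = (maxDet A (k + 1) ω : ℝ) / m := hX.apply hm (by omega) ω t rfl
      have h3 := le_osc (T := T) (δ := δ) (X m ω) t s
        ⟨ht0, by
          show ((k + 1 : ℕ) : ℝ) / (m : ℝ) ^ 2 ≤ T
          rw [div_le_iff₀ hmm]; push_cast; exact hk2'⟩
        ⟨hs0, by
          show (k : ℝ) / (m : ℝ) ^ 2 ≤ T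
          rw [div_le_iff₀ hmm]; linarith⟩
        (by
          show |((k + 1 : ℕ) : ℝ) / (m : ℝ) ^ 2 - (k : ℝ) / (m : ℝ) ^ 2| ≤ δ
          rw [← sub_div]
          push_cast
          rw [add_sub_cancel_left, abs_of_pos (by positivity)]
          exact hδ)
      rw [ht, hs, ← sub_div] at h3
      refine le_trans ?_ ((le_abs_self _).trans h3)
      rw [le_div_iff₀ hm0]
      exact hk3
  have s3 := (measureReal_mono s2 (measure_ne_top P _)).trans (measureReal_union_le _ _)
  have s4 := jump_bound h hm hT hε hε'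
  linarith

/-- Along no subsequence do the laws converge weakly on `C((0,∞))`. -/
theorem not_converge (h : IsModel P A) {X : ℕ → Ω → PathSpace} (hX : IsRescaled A X)
    {φ : ℕ → ℕ} (hφ : Tendsto φ atTop atTop) {μ : Measure PathSpace} [IsProbabilityMeasure μ]
    (hμ : ∀ F : PathSpace →ᵇ ℝ,
      Tendsto (fun j => ∫ ω, F (X (φ j) ω) ∂P) atTop (𝓝 (∫ f, F f ∂μ))) : False := by
  -- Step 1 : the limit does not increase
  have key : ∀ (T : ℕ) (hT : 1 ≤ T), ∫ f, incr T hT f ∂μ ≤ 0 := by
    intro T hT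
    by_contra hcon
    push Not at hcon
    set p := (∫ f, incr T hT f ∂μ) / 2 with hp
    have hp0 : 0 < p := by positivity
    have hT0 : (0 : ℝ) < T := by exact_mod_cast hT
    set ε := p / 2 with hε
    set ε' := p ^ 2 / (16 * T) with hε'
    have hε0 : 0 < ε := by positivity
    have hε'0 : 0 < ε' := by positivity
    have hG := hμ (mkB (incr T hT) (continuous_incr T hT) (incr_nonneg T hT) (incr_le T hT))
    have hG' : ∀ᶠ j in atTop, p < ∫ ω, incr T hT (X (φ j) ω) ∂P := by
      refine hG.eventually_const_lt ?_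
      show p < ∫ f, incr T hT f ∂μ
      have : ∫ f, incr T hT f ∂μ = 2 * p := by rw [hp]; ring
      linarith
    let H : ℕ → PathSpace → ℝ := fun n f => min 1 (osc T (1 / ((n : ℝ) + 1)) f / ε')
    have Hc : ∀ n, Continuous (H n) := fun n =>
      continuous_const.min ((continuous_osc _ _).div_const _)
    have H0 : ∀ n f, 0 ≤ H n f := fun n f =>
      le_min zero_le_one (div_nonneg (osc_nonneg _ _ _) hε'0.le)
    have H1 : ∀ n f, H n f ≤ 1 := fun n f => min_le_left _ _
    have Hlow : ∀ n, p / 4 ≤ ∫ f, H n f ∂μ := by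
      intro n
      have hH := hμ (mkB (H n) (Hc n) (H0 n) (H1 n))
      refine ge_of_tendsto hH ?_
      have hm1 : ∀ᶠ j in atTop, 1 ≤ φ j := hφ.eventually_ge_atTop 1
      have hm2 : ∀ᶠ j in atTop, n + 1 ≤ φ j := hφ.eventually_ge_atTop (n + 1)
      filter_upwards [hG', hm1, hm2] with j hj1 hj2 hj3
      have hδ : 1 / ((φ j : ℕ) : ℝ) ^ 2 ≤ 1 / ((n : ℝ) + 1) := by
        have a1 : (n : ℝ) + 1 ≤ φ j := by exact_mod_cast hj3
        have a2 : (1 : ℝ) ≤ φ j := by exact_mod_cast hj2
        apply one_div_le_one_div_of_le (by positivity)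
        nlinarith
      have hl := osc_lower h hX hj2 hT hε0 hε'0 hδ
      have hcalc : 2 * (T : ℝ) * ε' / ε = p / 4 := by
        rw [hε', hε]
        field_simp
        ring
      have hl2 : p / 4 ≤ P.real {ω | ε' ≤ osc T (1 / ((n : ℝ) + 1)) (X (φ j) ω)} := by
        rw [hcalc] at hl
        have : p / 4 = p - ε - p / 4 := by rw [hε]; ring
        linarith
      refine hl2.trans ?_
      show _ ≤ ∫ ω, H n (X (φ j) ω) ∂P
      have hms : MeasurableSet {ω | ε' ≤ osc T (1 / ((n : ℝ) + 1)) (X (φ j) ω)} :=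
        measurableSet_le measurable_const ((continuous_osc _ _).measurable.comp (hX.meas _ hj2))
      rw [← integral_indicator_one hms]
      refine integral_mono ((integrable_const (1 : ℝ)).indicator hms)
        (integrable_of_unit ((Hc n).measurable.comp (hX.meas _ hj2)) (fun ω => H0 n _)
          (fun ω => H1 n _)) fun ω => ?_
      by_cases hω : ω ∈ {ω | ε' ≤ osc T (1 / ((n : ℝ) + 1)) (X (φ j) ω)}
      · simp only [Set.indicator_of_mem hω, Pi.one_apply]
        refine le_min le_rfl ?_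
        rw [le_div_iff₀ hε'0, one_mul]
        exact hω
      · simp only [Set.indicator_of_notMem hω]
        exact H0 n _
    have Hlim : Tendsto (fun n => ∫ f, H n f ∂μ) atTop (𝓝 (∫ _f : PathSpace, (0 : ℝ) ∂μ)) := by
      refine tendsto_integral_of_dominated_convergence (fun _ => (1 : ℝ))
        (fun n => (Hc n).measurable.aestronglyMeasurable) (integrable_const _)
        (fun n => Eventually.of_forall fun f => ?_) (Eventually.of_forall fun f => ?_)
      · rw [Real.norm_of_nonneg (H0 n f)]; exact H1 n f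
      · have h1 := (tendsto_osc T f).div_const ε'
        rw [zero_div] at h1
        have h2 := (tendsto_const_nhds (x := (1 : ℝ))).min h1
        rwa [min_eq_right zero_le_one] at h2
    rw [integral_zero] at Hlim
    have := ge_of_tendsto' Hlim Hlow
    linarith
  -- Step 2 : lower bound at time `2 c²`
  let g : ℕ → ℝ → ℝ := fun c x => min 1 (max 0 (x - c + 1))
  have gc : ∀ c, Continuous (g c) := fun c => by simp only [g]; fun_prop
  have g0 : ∀ c x, 0 ≤ g c x := fun c x => le_min zero_le_one (le_max_left _ _)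
  have g1 : ∀ c x, g c x ≤ 1 := fun c x => min_le_left _ _
  have low : ∀ c : ℕ, 1 ≤ c → 1 / 2 ≤ ∫ f : PathSpace, g c (f (pt 1 le_rfl)) ∂μ := by
    intro c hc
    have hT : 1 ≤ 2 * c ^ 2 := by
      have : 1 ≤ c ^ 2 := Nat.one_le_pow _ _ hc
      omega
    set T := 2 * c ^ 2 with hTdef
    have Fc : Continuous (fun f : PathSpace => g c (f (pt T hT))) := (gc c).comp (by fun_prop)
    have Fc1 : Continuous (fun f : PathSpace => g c (f (pt 1 le_rfl))) :=
      (gc c).comp (by fun_prop)
    have hH := hμ (mkB (fun f : PathSpace => g c (f (pt T hT))) Fc (fun f => g0 _ _)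
      (fun f => g1 _ _))
    have h1 : 1 / 2 ≤ ∫ f : PathSpace, g c (f (pt T hT)) ∂μ := by
      refine ge_of_tendsto hH ?_
      have hm1 : ∀ᶠ j in atTop, 1 ≤ φ j := hφ.eventually_ge_atTop 1
      filter_upwards [hm1] with j hj
      show _ ≤ ∫ ω, g c (X (φ j) ω (pt T hT)) ∂P
      generalize φ j = m at hj
      have hm0 : (0 : ℝ) < m := by exact_mod_cast hj
      have hc0 : (0 : ℝ) < c := by exact_mod_cast hc
      have hTm : 1 ≤ T * m ^ 2 := Nat.one_le_iff_ne_zero.2 (by positivity)
      obtain ⟨l, hl⟩ : ∃ l, T * m ^ 2 = l + 1 := ⟨T * m ^ 2 - 1, by omega⟩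
      have hp := prob_le_maxDet h (c * m) l
      have hle : (1 : ℝ) / 2 ≤ P.real {ω | c * m ≤ maxDet A (l + 1) ω} := by
        refine le_trans (le_of_eq ?_) hp
        have : (l : ℝ) + 1 = 2 * (c : ℝ) ^ 2 * (m : ℝ) ^ 2 := by
          have : ((l + 1 : ℕ) : ℝ) = ((T * m ^ 2 : ℕ) : ℝ) := by rw [hl]
          rw [hTdef] at this
          push_cast at this
          linarith
        rw [this]
        push_cast
        field_simp
        norm_num
      have hXT : ∀ ω, X m ω (pt T hT) = (maxDet A (T * m ^ 2) ω : ℝ) / m := fun ω =>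
        hX.apply hj hTm ω _ (by
          show (T : ℝ) = _
          push_cast
          field_simp)
      have hms : MeasurableSet {ω | c * m ≤ maxDet A (l + 1) ω} :=
        past_le h l _ (measurableSet_le_maxDet _ l)
      refine hle.trans ?_
      rw [← integral_indicator_one hms]
      refine integral_mono ((integrable_const (1 : ℝ)).indicator hms)
        (integrable_of_unit (Fc.measurable.comp (hX.meas _ hj)) (fun ω => g0 _ _)
          (fun ω => g1 _ _)) fun ω => ?_
      by_cases hω : ω ∈ {ω | c * m ≤ maxDet A (l + 1) ω}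
      · simp only [Set.indicator_of_mem hω, Pi.one_apply]
        refine le_min le_rfl (le_max_of_le_right ?_)
        rw [hXT, hl]
        have : (c : ℝ) ≤ (maxDet A (l + 1) ω : ℝ) / m := by
          rw [le_div_iff₀ hm0]
          exact_mod_cast hω
        linarith
      · simp only [Set.indicator_of_notMem hω]
        exact g0 _ _
    have h2 := key T hT
    have i1 : Integrable (fun f : PathSpace => g c (f (pt T hT))) μ :=
      integrable_of_unit Fc.measurable (fun f => g0 _ _) (fun f => g1 _ _)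
    have i2 : Integrable (fun f : PathSpace => g c (f (pt 1 le_rfl))) μ :=
      integrable_of_unit Fc1.measurable (fun f => g0 _ _) (fun f => g1 _ _)
    have i3 : Integrable (incr T hT) μ :=
      integrable_of_unit (continuous_incr T hT).measurable (incr_nonneg T hT) (incr_le T hT)
    have h3 : ∫ f : PathSpace, g c (f (pt T hT)) ∂μ ≤
        ∫ f : PathSpace, (g c (f (pt 1 le_rfl)) + incr T hT f) ∂μ := by
      refine integral_mono i1 (i2.add i3) fun f => ?_
      simp only [g, incr]
      generalize f (pt T hT) = y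
      generalize f (pt 1 le_rfl) = x
      rcases le_total y x with hxy | hxy
      · have : min 1 (max 0 (y - c + 1)) ≤ min 1 (max 0 (x - (c : ℝ) + 1)) := by gcongr
        have h4 : 0 ≤ min (1 : ℝ) (max 0 (y - x)) := le_min zero_le_one (le_max_left _ _)
        linarith
      · rw [max_eq_right (sub_nonneg.2 hxy)]
        rcases le_total 1 (y - x) with h5 | h5
        · rw [min_eq_left h5]
          have h6 : min 1 (max 0 (y - (c : ℝ) + 1)) ≤ 1 := min_le_left _ _
          have h7 : 0 ≤ min 1 (max 0 (x - (c : ℝ) + 1)) := le_min zero_le_one (le_max_left _ _)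
          linarith
        · rw [min_eq_right h5]
          have h8 : max 0 (y - (c : ℝ) + 1) ≤ max 0 (x - (c : ℝ) + 1) + (y - x) := by
            refine max_le ?_ ?_
            · have := le_max_left 0 (x - (c : ℝ) + 1)
              linarith
            · have := le_max_right 0 (x - (c : ℝ) + 1)
              linarith
          rcases le_total 1 (max 0 (x - (c : ℝ) + 1)) with h9 | h9
          · rw [min_eq_left h9]
            have h6 : min 1 (max 0 (y - (c : ℝ) + 1)) ≤ 1 := min_le_left _ _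
            linarith
          · rw [min_eq_right h9]
            exact (min_le_right _ _).trans h8
    rw [integral_add i2 i3] at h3
    linarith
  -- Step 3 : contradiction, since a real random variable is finite
  have lim : Tendsto (fun c : ℕ => ∫ f : PathSpace, g c (f (pt 1 le_rfl)) ∂μ) atTop
      (𝓝 (∫ _f : PathSpace, (0 : ℝ) ∂μ)) := by
    refine tendsto_integral_of_dominated_convergence (fun _ => (1 : ℝ))
      (fun c => ((gc c).comp (by fun_prop :
        Continuous (fun f : PathSpace => f (pt 1 le_rfl)))).measurable.aestronglyMeasurable)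
      (integrable_const _)
      (fun c => Eventually.of_forall fun f => ?_) (Eventually.of_forall fun f => ?_)
    · rw [Real.norm_of_nonneg (g0 _ _)]; exact g1 _ _
    · obtain ⟨N, hN⟩ := exists_nat_gt (f (pt 1 le_rfl) + 1)
      refine tendsto_const_nhds.congr' ?_
      filter_upwards [eventually_ge_atTop N] with c hc
      have : (N : ℝ) ≤ c := by exact_mod_cast hc
      simp only [g]
      rw [max_eq_left (by linarith), min_eq_right zero_le_one]
  rw [integral_zero] at lim
  have hfin : (1 : ℝ) / 2 ≤ 0 := by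
    refine ge_of_tendsto lim ?_
    filter_upwards [eventually_ge_atTop 1] with c hc using low c hc
  linarith

end

/-! ### Existence of the model -/

/-- Law of a single move with success probability `1 / (k + 2)`. -/
noncomputable def coin (k : ℕ) : Measure Bool :=
  (1 - ((k + 2 : ℕ) : ℝ≥0∞)⁻¹) • Measure.dirac false + ((k + 2 : ℕ) : ℝ≥0∞)⁻¹ • Measure.dirac true

instance (k : ℕ) : IsProbabilityMeasure (coin k) := by
  refine ⟨?_⟩
  have : ((k + 2 : ℕ) : ℝ≥0∞)⁻¹ ≤ 1 := by
    rw [ENNReal.inv_le_one]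
    exact_mod_cast (by omega : 1 ≤ k + 2)
  simp only [coin, Measure.add_apply, Measure.smul_apply, measure_univ, smul_eq_mul, mul_one]
  exact tsub_add_cancel_of_le this

lemma coin_true (k : ℕ) : coin k {true} = ((k + 2 : ℕ) : ℝ≥0∞)⁻¹ := by
  simp [coin, Measure.dirac_apply']

/-- The detachment process exists. -/
theorem exists_model : ∃ (Ω : Type) (_ : MeasurableSpace Ω) (P : Measure Ω)
    (_ : IsProbabilityMeasure P) (A : ℕ → ℕ → Set Ω), IsModel P A := by
  refine ⟨ℕ × ℕ → Bool, inferInstance, Measure.infinitePi (fun p : ℕ × ℕ => coin p.1),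
    inferInstance, fun k i => {ω | ω (k - 2, i - 1) = true}, ?_⟩
  have hm : ∀ p : ℕ × ℕ, MeasurableSet {ω : ℕ × ℕ → Bool | ω p = true} := fun p =>
    measurableSet_eq_fun (measurable_pi_apply p) measurable_const
  have hcyl : ∀ s : Finset (ℕ × ℕ), Measure.infinitePi (fun p : ℕ × ℕ => coin p.1)
      (⋂ p ∈ s, {ω : ℕ × ℕ → Bool | ω p = true}) = ∏ p ∈ s, coin p.1 {true} := by
    intro s
    have e : (⋂ p ∈ s, {ω : ℕ × ℕ → Bool | ω p = true}) =
        Set.pi (s : Set (ℕ × ℕ)) (fun _ => {true}) := by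
      ext ω
      simp [Set.mem_pi]
    rw [e, Measure.infinitePi_pi (fun p : ℕ × ℕ => coin p.1)
      (fun p _ => measurableSet_singleton true)]
  have hone : ∀ p : ℕ × ℕ, Measure.infinitePi (fun p : ℕ × ℕ => coin p.1)
      {ω : ℕ × ℕ → Bool | ω p = true} = coin p.1 {true} := by
    intro p
    have := hcyl {p}
    simpa using this
  refine ⟨fun k i _ _ => hm _, fun k i hk hi => ?_, ?_⟩
  · show Measure.infinitePi (fun p : ℕ × ℕ => coin p.1)
      {ω : ℕ × ℕ → Bool | ω (k - 2, i - 1) = true} = _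
    rw [hone, coin_true]
    congr 2
    have : k - 2 + 2 = k := by omega
    rw [this]
  · refine (iIndepSet_iff_meas_biInter (fun p => hm _)).2 fun s => ?_
    have e : ∀ p : ℕ × ℕ, ((p.1 + 2 - 2, p.2 + 1 - 1) : ℕ × ℕ) = p := fun p => by
      simp
    simp only [e]
    rw [hcyl s]
    exact Finset.prod_congr rfl fun p _ => (hone p).symm

end Pool.Agent.V11331.DT
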