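import Pool.Agent.V11331.DT.Basic

/-!
# The rescaled interpolated process as a random element of `C((0,∞))`
-/

open MeasureTheory ProbabilityTheory Filter Topology Set
open scoped ENNReal BoundedContinuousFunction

namespace Pool.Agent.V11331.DT

/-- Linear interpolation of a sequence between consecutive integers. -/
noncomputable def interp (a : ℕ → ℝ) (x : ℝ) : ℝ :=
  a ⌊x⌋₊ + (x - ⌊x⌋₊) * (a (⌊x⌋₊ + 1) - a ⌊x⌋₊)

/-- The space of continuous paths on `(0, ∞)`, with the topology of uniform convergence on compact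
sets (the compact-open topology) and its Borel σ-algebra. -/
abbrev PathSpace : Type := C(Set.Ioi (0 : ℝ), ℝ)

instance : MeasurableSpace PathSpace := borel _
instance : BorelSpace PathSpace := ⟨rfl⟩

/-- `M⁽ᵐ⁾(t) = M(m² t) / m`, with `M` extended to real times by linear interpolation. -/
noncomputable def rescaled {Ω : Type*} (A : ℕ → ℕ → Set Ω) (m : ℕ) (ω : Ω) (t : ℝ) : ℝ :=
  interp (fun k => (maxDet A k ω : ℝ)) ((m : ℝ) ^ 2 * t) / m

/-- `X m` is a random continuous path on `(0,∞)` that equals `M⁽ᵐ⁾` on `[1/m², ∞)`. -/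
structure IsRescaled {Ω : Type*} [MeasurableSpace Ω] (A : ℕ → ℕ → Set Ω)
    (X : ℕ → Ω → PathSpace) : Prop where
  meas : ∀ m : ℕ, 1 ≤ m → Measurable (X m)
  eq : ∀ m : ℕ, 1 ≤ m → ∀ (ω : Ω) (t : Set.Ioi (0 : ℝ)), 1 / (m : ℝ) ^ 2 ≤ t →
    X m ω t = rescaled A m ω t

lemma interp_natCast (a : ℕ → ℝ) (k : ℕ) : interp a (k : ℝ) = a k := by
  simp [interp]

lemma interp_eq_sum (a : ℕ → ℝ) {n : ℕ} {x : ℝ} (h0 : 0 ≤ x) (hx : x < n) :
    interp a x = a 0 + ∑ k ∈ Finset.range n, (a (k + 1) - a k) * max 0 (min 1 (x - k)) := by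
  have h1 : (⌊x⌋₊ : ℝ) ≤ x := Nat.floor_le h0
  have h2 : x < ⌊x⌋₊ + 1 := Nat.lt_floor_add_one x
  have h3 : ⌊x⌋₊ < n := by
    have : (⌊x⌋₊ : ℝ) < n := lt_of_le_of_lt h1 hx
    exact_mod_cast this
  set N := ⌊x⌋₊ with hN
  rw [← Finset.sum_range_add_sum_Ico _ (show N + 1 ≤ n by omega), Finset.sum_range_succ]
  have e1 : ∑ k ∈ Finset.range N, (a (k + 1) - a k) * max 0 (min 1 (x - k)) =
      ∑ k ∈ Finset.range N, (a (k + 1) - a k) := by
    refine Finset.sum_congr rfl fun k hk => ?_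
    have hk' : (k : ℝ) + 1 ≤ N := by exact_mod_cast Finset.mem_range.1 hk
    rw [min_eq_left (by linarith), max_eq_right (by norm_num), mul_one]
  have e2 : ∑ k ∈ Finset.Ico (N + 1) n, (a (k + 1) - a k) * max 0 (min 1 (x - k)) = 0 := by
    refine Finset.sum_eq_zero fun k hk => ?_
    have hk' : (N : ℝ) + 1 ≤ k := by exact_mod_cast (Finset.mem_Ico.1 hk).1
    rw [max_eq_left (min_le_of_right_le (by linarith)), mul_zero]
  rw [e1, e2, Finset.sum_range_sub, min_eq_right (by linarith), max_eq_right (by linarith),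
    interp, ← hN]
  ring

lemma continuous_interp {Y : Type*} [TopologicalSpace Y] {u : Y → ℝ} (hu : Continuous u)
    (h0 : ∀ y, 0 ≤ u y) : Continuous (fun p : (ℕ → ℝ) × Y => interp p.1 (u p.2)) := by
  rw [continuous_iff_continuousAt]
  intro p₀
  have hn : u p₀.2 < (⌊u p₀.2⌋₊ + 1 : ℕ) := by
    push_cast
    exact Nat.lt_floor_add_one _
  set n := ⌊u p₀.2⌋₊ + 1
  have hev : ∀ᶠ p : (ℕ → ℝ) × Y in 𝓝 p₀, u p.2 < n :=
    (hu.comp continuous_snd).continuousAt.eventually_lt continuousAt_const hn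
  have hcont : Continuous (fun p : (ℕ → ℝ) × Y => p.1 0 +
      ∑ k ∈ Finset.range n, (p.1 (k + 1) - p.1 k) * max 0 (min 1 (u p.2 - k))) := by
    fun_prop
  refine hcont.continuousAt.congr ?_
  filter_upwards [hev] with p hp
  exact (interp_eq_sum p.1 (h0 _) hp).symm

/-- The path associated with a sequence (constant on `(0, 1/m²]`). -/
noncomputable def pathOf (m : ℕ) (a : ℕ → ℝ) : PathSpace where
  toFun t := interp a (max ((m : ℝ) ^ 2 * t) 1) / m
  continuous_toFun := by
    have h := continuous_interp (Y := Set.Ioi (0 : ℝ))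
      (u := fun t => max ((m : ℝ) ^ 2 * t) 1) (by fun_prop)
      (fun y => le_max_of_le_right zero_le_one)
    exact (h.comp (Continuous.prodMk continuous_const continuous_id)).div_const _

lemma continuous_pathOf (m : ℕ) : Continuous (pathOf m) := by
  refine ContinuousMap.continuous_of_continuous_uncurry _ ?_
  have h := continuous_interp (Y := Set.Ioi (0 : ℝ))
      (u := fun t => max ((m : ℝ) ^ 2 * t) 1) (by fun_prop)
      (fun y => le_max_of_le_right zero_le_one)
  exact h.div_const _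

variable {Ω : Type*} [MeasurableSpace Ω] {P : Measure Ω} [IsProbabilityMeasure P]
  {A : ℕ → ℕ → Set Ω}

lemma measurable_maxDet (h : IsModel P A) : ∀ k : ℕ, Measurable (maxDet A k)
  | 0 => by
    have : maxDet A 0 = fun _ => 0 := by
      ext ω
      unfold maxDet
      have : {n : ℕ | tauHat A n ω ≤ (0 : ℕ)} = ∅ := by
        refine Set.eq_empty_of_forall_notMem fun n hn => ?_
        obtain ⟨k', h1, h2, _⟩ := tauHat_le_iff.1 hn
        omega
      rw [this]
      simp
    rw [this]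
    exact measurable_const
  | (l + 1) => by
    refine measurable_of_Ici fun n => ?_
    exact past_le h l _ (measurableSet_le_maxDet n l)

/-- Random paths as in the statement exist. -/
lemma exists_isRescaled (h : IsModel P A) : ∃ X, IsRescaled A X := by
  refine ⟨fun m ω => pathOf m (fun k => (maxDet A k ω : ℝ)), fun m _ => ?_, fun m hm ω t ht => ?_⟩
  · refine (continuous_pathOf m).measurable.comp (measurable_pi_iff.2 fun k => ?_)
    exact (measurable_from_top (f := fun n : ℕ => (n : ℝ))).comp (measurable_maxDet h k)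
  · show interp _ (max ((m : ℝ) ^ 2 * t) 1) / m = rescaled A m ω t
    have hm' : (0 : ℝ) < (m : ℝ) ^ 2 := by
      have : (0 : ℝ) < m := by exact_mod_cast hm
      positivity
    have : 1 ≤ (m : ℝ) ^ 2 * t := by
      rw [div_le_iff₀ hm'] at ht
      linarith
    rw [max_eq_left this, rescaled]

/-- Value of the rescaled path at a rational time `k / m²`. -/
lemma IsRescaled.apply {X : ℕ → Ω → PathSpace} (hX : IsRescaled A X) {m k : ℕ} (hm : 1 ≤ m)
    (hk : 1 ≤ k) (ω : Ω) (t : Set.Ioi (0 : ℝ)) (ht : (t : ℝ) = (k : ℝ) / (m : ℝ) ^ 2) :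
    X m ω t = (maxDet A k ω : ℝ) / m := by
  have hm' : (0 : ℝ) < (m : ℝ) ^ 2 := by
    have : (0 : ℝ) < m := by exact_mod_cast hm
    positivity
  have hk' : (1 : ℝ) ≤ k := by exact_mod_cast hk
  rw [hX.eq m hm ω t (by rw [ht]; gcongr), rescaled, ht, mul_div_cancel₀ _ hm'.ne',
    interp_natCast]

/-! ### Few jumps -/

lemma jump_bound (h : IsModel P A) {m T : ℕ} (hm : 1 ≤ m) (hT : 1 ≤ T) {ε ε' : ℝ} (hε : 0 < ε)
    (hε' : 0 < ε') :
    P.real {ω | ε * m < (maxDet A (T * m ^ 2) ω : ℝ) - maxDet A (m ^ 2) ω ∧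
      ∀ k, m ^ 2 ≤ k → k < T * m ^ 2 → (maxDet A (k + 1) ω : ℝ) - maxDet A k ω < ε' * m} ≤
      2 * T * ε' / ε := by
  have hm0 : (0 : ℝ) < m := by exact_mod_cast hm
  have hm2 : 1 ≤ m ^ 2 := Nat.one_le_pow _ _ hm
  obtain ⟨b, hb⟩ : ∃ b, m ^ 2 = b + 1 := ⟨m ^ 2 - 1, by omega⟩
  obtain ⟨n, hn⟩ : ∃ n, T * m ^ 2 = b + n + 1 := ⟨T * m ^ 2 - m ^ 2, by
    have : m ^ 2 ≤ T * m ^ 2 := Nat.le_mul_of_pos_left _ hT
    omega⟩
  let I : ℕ → Set Ω := fun i => {ω | maxDet A (b + i + 1) ω < maxDet A (b + i + 2) ω}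
  have hIm : ∀ i, MeasurableSet (I i) := fun i =>
    measurableSet_lt (measurable_maxDet h _) (measurable_maxDet h _)
  let Y : Ω → ℝ := fun ω => ∑ i ∈ Finset.range n, (I i).indicator (fun _ => (1 : ℝ)) ω
  have hsub : {ω | ε * m < (maxDet A (T * m ^ 2) ω : ℝ) - maxDet A (m ^ 2) ω ∧
      ∀ k, m ^ 2 ≤ k → k < T * m ^ 2 → (maxDet A (k + 1) ω : ℝ) - maxDet A k ω < ε' * m} ⊆
      {ω | ε / ε' ≤ Y ω} := by
    rintro ω ⟨h1, h2⟩
    have htel : (maxDet A (T * m ^ 2) ω : ℝ) - maxDet A (m ^ 2) ω =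
        ∑ i ∈ Finset.range n, ((maxDet A (b + (i + 1) + 1) ω : ℝ) - maxDet A (b + i + 1) ω) := by
      rw [Finset.sum_range_sub (fun i => (maxDet A (b + i + 1) ω : ℝ)), hn, hb]
    have hle : ∑ i ∈ Finset.range n,
        ((maxDet A (b + (i + 1) + 1) ω : ℝ) - maxDet A (b + i + 1) ω) ≤
        ∑ i ∈ Finset.range n, (I i).indicator (fun _ => (1 : ℝ)) ω * (ε' * m) := by
      refine Finset.sum_le_sum fun i hi => ?_
      have hi' := Finset.mem_range.1 hi
      by_cases hc : maxDet A (b + i + 1) ω < maxDet A (b + i + 2) ω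
      · rw [Set.indicator_of_mem (show ω ∈ I i from hc), one_mul]
        exact (h2 (b + i + 1) (by omega) (by omega)).le
      · rw [Set.indicator_of_notMem (show ω ∉ I i from hc), zero_mul]
        have : (maxDet A (b + (i + 1) + 1) ω : ℝ) ≤ maxDet A (b + i + 1) ω := by
          exact_mod_cast not_lt.1 hc
        linarith
    rw [← Finset.sum_mul] at hle
    have : ε * m < Y ω * (ε' * m) := by
      calc ε * m < _ := h1
        _ = _ := htel
        _ ≤ _ := hle
    show ε / ε' ≤ Y ω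
    rw [div_le_iff₀ hε']
    have h3 : ε * m < (Y ω * ε') * m := by linarith
    exact (lt_of_mul_lt_mul_right h3 hm0.le).le
  have hYint : ∀ i ∈ Finset.range n,
      Integrable (fun ω => (I i).indicator (fun _ => (1 : ℝ)) ω) P := fun i _ =>
    (integrable_const (1 : ℝ)).indicator (hIm i)
  have hEY : ∫ ω, Y ω ∂P ≤ 2 * T := by
    calc ∫ ω, Y ω ∂P = ∑ i ∈ Finset.range n, ∫ ω, (I i).indicator (fun _ => (1 : ℝ)) ω ∂P :=
          integral_finsetSum _ hYint
      _ = ∑ i ∈ Finset.range n, P.real (I i) := by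
          refine Finset.sum_congr rfl fun i _ => ?_
          exact integral_indicator_one (hIm i)
      _ ≤ ∑ i ∈ Finset.range n, 2 / ((m : ℝ) ^ 2) := by
          refine Finset.sum_le_sum fun i _ => ?_
          refine (prob_increase h (b + i)).trans ?_
          have : ((m : ℝ)) ^ 2 = b + 1 := by exact_mod_cast hb
          rw [this]
          push_cast
          have : (0 : ℝ) ≤ i := Nat.cast_nonneg _
          apply div_le_div_of_nonneg_left (by norm_num) (by positivity)
          linarith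
      _ = n * (2 / ((m : ℝ) ^ 2)) := by rw [Finset.sum_const, Finset.card_range, nsmul_eq_mul]
      _ ≤ (T * (m : ℝ) ^ 2) * (2 / ((m : ℝ) ^ 2)) := by
          gcongr
          have : n ≤ T * m ^ 2 := by omega
          exact_mod_cast this
      _ = 2 * T := by
          have : (m : ℝ) ^ 2 ≠ 0 := by positivity
          field_simp
  have hY0 : 0 ≤ᵐ[P] Y := Eventually.of_forall fun ω =>
    Finset.sum_nonneg fun i _ => Set.indicator_nonneg (fun _ _ => zero_le_one) _
  have hmk := mul_meas_ge_le_integral_of_nonneg hY0 (integrable_finsetSum _ hYint) (ε / ε')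
  have h3 : P.real {ω | ε / ε' ≤ Y ω} ≤ 2 * T * ε' / ε := by
    rw [le_div_iff₀ hε]
    have h4 : ε / ε' * P.real {ω | ε / ε' ≤ Y ω} ≤ 2 * T := hmk.trans hEY
    have h5 : ε * P.real {ω | ε / ε' ≤ Y ω} ≤ 2 * T * ε' := by
      have := mul_le_mul_of_nonneg_right h4 hε'.le
      calc ε * P.real {ω | ε / ε' ≤ Y ω} = ε / ε' * P.real {ω | ε / ε' ≤ Y ω} * ε' := by
            field_simp
        _ ≤ _ := this
    linarith
  exact (measureReal_mono hsub (measure_ne_top _ _)).trans h3

end Pool.Agent.V11331.DT
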